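import Pool.Agent.Y957.MC.Spec

/-!
# Project MC, part GOODG (helper571): admissible functions give good sequences of times
-/

set_option autoImplicit false

namespace Pool.Agent.Y571.MC

open MeasureTheory Filter Finset Pool.Agent.Y957.MC

theorem incr {φ : ℕ → ℝ → ℝ} {d x₁ : ℝ} (hx₁ : 0 < x₁)
    (hder : ∀ x, x₁ ≤ x → HasDerivAt (φ 0) (φ 1 x) x)
    (hb : ∀ x, x₁ ≤ x → d / 2 ≤ x * φ 1 x ∧ x * φ 1 x ≤ 2 * d) (a b : ℝ) (ha : x₁ ≤ a)
    (hab : a ≤ b) : d / 2 * (Real.log b - Real.log a) ≤ φ 0 b - φ 0 a ∧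
      φ 0 b - φ 0 a ≤ 2 * d * (Real.log b - Real.log a) := by
  have hpos : ∀ x, x₁ ≤ x → 0 < x := fun x hx => by linarith
  have hm1 : MonotoneOn (fun x => φ 0 x - d / 2 * Real.log x) (Set.Ici x₁) := by
    have hd : ∀ x, x₁ ≤ x → HasDerivAt (fun x => φ 0 x - d / 2 * Real.log x)
        (φ 1 x - d / 2 * x⁻¹) x := fun x hx =>
      (hder x hx).sub ((Real.hasDerivAt_log (hpos x hx).ne').const_mul (d / 2))
    apply monotoneOn_of_deriv_nonneg (convex_Ici x₁)
    · intro x hx
      exact (hd x hx).continuousAt.continuousWithinAt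
    · intro x hx
      rw [interior_Ici] at hx
      exact (hd x hx.le).differentiableAt.differentiableWithinAt
    · intro x hx
      rw [interior_Ici] at hx
      rw [(hd x hx.le).deriv]
      have h1 := (hb x hx.le).1
      have h2 := hpos x hx.le
      have h3 : d / 2 * x⁻¹ ≤ φ 1 x := by
        rw [← div_eq_mul_inv, div_le_iff₀ h2]
        linarith
      linarith
  have hm2 : MonotoneOn (fun x => 2 * d * Real.log x - φ 0 x) (Set.Ici x₁) := by
    have hd : ∀ x, x₁ ≤ x → HasDerivAt (fun x => 2 * d * Real.log x - φ 0 x)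
        (2 * d * x⁻¹ - φ 1 x) x := fun x hx =>
      ((Real.hasDerivAt_log (hpos x hx).ne').const_mul (2 * d)).sub (hder x hx)
    apply monotoneOn_of_deriv_nonneg (convex_Ici x₁)
    · intro x hx
      exact (hd x hx).continuousAt.continuousWithinAt
    · intro x hx
      rw [interior_Ici] at hx
      exact (hd x hx.le).differentiableAt.differentiableWithinAt
    · intro x hx
      rw [interior_Ici] at hx
      rw [(hd x hx.le).deriv]
      have h1 := (hb x hx.le).2
      have h2 := hpos x hx.le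
      have h3 : φ 1 x ≤ 2 * d * x⁻¹ := by
        rw [← div_eq_mul_inv, le_div_iff₀ h2]
        linarith
      linarith
  have h1 := hm1 (Set.mem_Ici.2 ha) (Set.mem_Ici.2 (ha.trans hab)) hab
  have h2 := hm2 (Set.mem_Ici.2 ha) (Set.mem_Ici.2 (ha.trans hab)) hab
  simp only at h1 h2
  constructor <;> linarith

theorem log_tend : Tendsto (fun N : ℕ => Real.log (N : ℝ)) atTop atTop :=
  Real.tendsto_log_atTop.comp tendsto_natCast_atTop_atTop

theorem goodg (h : S_EXPG) : S_GOODG := by
  intro p hp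
  obtain ⟨φ, d, x₀, hφ, hpx⟩ := hp
  obtain ⟨hd, ⟨x₀', hder⟩, hlim⟩ := id hφ
  -- the point from which on everything holds
  have h0 := hlim 0
  simp only [pow_zero, one_mul, zero_add, pow_one, Nat.factorial_zero, Nat.cast_one] at h0
  have h1 : ∀ᶠ x : ℝ in atTop, d / 2 ≤ x * φ 1 x ∧ x * φ 1 x ≤ 2 * d := by
    have := h0.eventually (Icc_mem_nhds (a := d / 2) (b := 2 * d) (by linarith) (by linarith))
    filter_upwards [this] with x hx
    exact hx
  obtain ⟨x₂, hx₂⟩ := h1.exists_forall_of_atTop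
  obtain ⟨x₁, hx₁⟩ : ∃ x₁ : ℝ, x₁ = max (max x₀ x₀') (max x₂ 1) := ⟨_, rfl⟩
  have g0 : x₀ ≤ x₁ := hx₁ ▸ (le_max_left _ _).trans (le_max_left _ _)
  have g0' : x₀' ≤ x₁ := hx₁ ▸ (le_max_right _ _).trans (le_max_left _ _)
  have g2 : x₂ ≤ x₁ := hx₁ ▸ (le_max_left _ _).trans (le_max_right _ _)
  have g1 : 1 ≤ x₁ := hx₁ ▸ (le_max_right _ _).trans (le_max_right _ _)
  have hincr := incr (φ := φ) (d := d) (x₁ := x₁) (by linarith)
    (fun x hx => hder 0 x (g0'.trans hx)) (fun x hx => hx₂ x (g2.trans hx))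
  have hexp : ∀ x, x₁ ≤ x → p x = Real.exp (φ 0 x) := by
    intro x hx
    obtain ⟨k1, k2⟩ := hpx x (g0.trans hx)
    rw [k2, Real.exp_log k1]
  have hppos : ∀ x, x₁ ≤ x → 0 < p x := fun x hx => (hpx x (g0.trans hx)).1
  have hNbig : ∀ K : ℝ, ∀ᶠ N : ℕ in atTop, K ≤ (N : ℝ) := fun K =>
    tendsto_natCast_atTop_atTop.eventually_ge_atTop K
  refine ⟨⟨d / 4, by positivity, ?_⟩, ⟨⌈3 * d⌉₊, ?_⟩, ?_, ?_⟩
  · -- lower bound
    filter_upwards [hNbig x₁, log_tend.eventually_ge_atTop
      ((d / 2 * Real.log x₁ - φ 0 x₁) / (d / 4))] with N hN hlog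
    have hN0 : (0 : ℝ) < N := by linarith
    rw [div_le_iff₀ (by positivity)] at hlog
    have k1 := (hincr x₁ N le_rfl hN).1
    rw [hexp N hN, Real.rpow_def_of_pos hN0]
    apply Real.exp_le_exp.2
    nlinarith
  · filter_upwards [hNbig x₁, log_tend.eventually_ge_atTop
      ((φ 0 x₁ - 2 * d * Real.log x₁) / d)] with N hN hlog
    have hN0 : (0 : ℝ) < N := by linarith
    have hN1 : (1 : ℝ) ≤ N := by linarith
    rw [div_le_iff₀ hd] at hlog
    have k1 := (hincr x₁ N le_rfl hN).2
    rw [hexp N hN, ← Real.rpow_natCast, Real.rpow_def_of_pos hN0]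
    apply Real.exp_le_exp.2
    have k2 : 3 * d ≤ (⌈3 * d⌉₊ : ℝ) := Nat.le_ceil _
    have k3 : 0 ≤ Real.log N := Real.log_nonneg hN1
    have k4 : Real.log N * (3 * d) ≤ Real.log N * (⌈3 * d⌉₊ : ℝ) :=
      mul_le_mul_of_nonneg_left k2 k3
    nlinarith
  · intro ε hε
    obtain ⟨E, hE⟩ : ∃ E : ℝ, E = Real.exp (-(2 * d * |Real.log ε|)) := ⟨_, rfl⟩
    have hE0 : 0 < E := hE ▸ Real.exp_pos _
    refine ⟨min E (min (E * d / 4) (ε / (4 * d))), by positivity, ?_⟩
    filter_upwards [hNbig x₁, hNbig (x₁ / ε), hNbig (2 * d / ε)] with N hN hN2 hN3 n hn1 hn2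
    rw [div_le_iff₀ hε] at hN2 hN3
    have hN0 : (0 : ℝ) < N := by linarith
    have hNn : (n : ℝ) ≤ N := by exact_mod_cast hn2
    have hnx : x₁ ≤ (n : ℝ) := by linarith
    have hn0 : (0 : ℝ) < n := by linarith
    have hn1x : x₁ ≤ (n : ℝ) + 1 := by linarith
    have hpN := hppos N hN
    have hpn := hppos n hnx
    -- comparison with p N
    have hlogn : Real.log N - Real.log n ≤ |Real.log ε| := by
      have k1 : Real.log (ε * N) ≤ Real.log n := Real.log_le_log (by positivity) hn1
      rw [Real.log_mul hε.ne' hN0.ne'] at k1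
      have := neg_abs_le (Real.log ε)
      linarith
    have hc1 : E * p N ≤ p n := by
      rw [hexp N hN, hexp n hnx, hE, ← Real.exp_add]
      apply Real.exp_le_exp.2
      have k1 := (hincr n N hnx hNn).2
      have k2 : 2 * d * (Real.log N - Real.log n) ≤ 2 * d * |Real.log ε| :=
        mul_le_mul_of_nonneg_left hlogn (by positivity)
      linarith
    have hc2 : p n ≤ p N := by
      rw [hexp N hN, hexp n hnx]
      apply Real.exp_le_exp.2
      have k1 := (hincr n N hnx hNn).1
      have k2 : 0 ≤ Real.log N - Real.log n := sub_nonneg.2 (Real.log_le_log hn0 hNn)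
      have k3 : 0 ≤ d / 2 * (Real.log N - Real.log n) := by positivity
      linarith
    obtain ⟨y, hy⟩ : ∃ y : ℝ, y = φ 0 ((n : ℝ) + 1) - φ 0 n := ⟨_, rfl⟩
    have hpy : p ((n : ℝ) + 1) = p n * Real.exp y := by
      rw [hexp _ hn1x, hexp n hnx, ← Real.exp_add, hy]
      congr 1
      ring
    have hlog1 : 1 / ((n : ℝ) + 1) ≤ Real.log ((n : ℝ) + 1) - Real.log n := by
      rw [← Real.log_div (by positivity) hn0.ne']
      have k1 := Real.one_sub_inv_le_log_of_pos (x := ((n : ℝ) + 1) / n) (by positivity)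
      have k2 : 1 - (((n : ℝ) + 1) / n)⁻¹ = 1 / ((n : ℝ) + 1) := by
        field_simp
        ring
      linarith
    have hlog2 : Real.log ((n : ℝ) + 1) - Real.log n ≤ 1 / n := by
      rw [← Real.log_div (by positivity) hn0.ne']
      have k1 := Real.log_le_sub_one_of_pos (x := ((n : ℝ) + 1) / n) (by positivity)
      have k2 : ((n : ℝ) + 1) / n - 1 = 1 / n := by
        field_simp
        ring
      linarith
    obtain ⟨hy1, hy2⟩ := hincr n (n + 1) hnx (by linarith)
    rw [← hy] at hy1 hy2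
    have hy3 : d / (4 * N) ≤ y := by
      refine le_trans ?_ hy1
      refine le_trans ?_ (mul_le_mul_of_nonneg_left hlog1 (by positivity))
      rw [mul_one_div, div_div, div_le_div_iff₀ (by positivity) (by positivity)]
      have : 2 * ((n : ℝ) + 1) ≤ 4 * N := by linarith
      nlinarith
    have hy4 : y ≤ 2 * d / (ε * N) := by
      refine hy2.trans ?_
      refine (mul_le_mul_of_nonneg_left hlog2 (by positivity)).trans ?_
      rw [mul_one_div]
      exact div_le_div_of_nonneg_left (by positivity) (by positivity) hn1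
    have hy5 : 0 ≤ y := le_trans (by positivity) hy3
    have hy6 : y ≤ 1 := by
      refine hy4.trans ?_
      rw [div_le_one (by positivity)]
      linarith
    have hmin1 : min E (min (E * d / 4) (ε / (4 * d))) ≤ E := min_le_left _ _
    have hmin2 : min E (min (E * d / 4) (ε / (4 * d))) ≤ E * d / 4 :=
      (min_le_right _ _).trans (min_le_left _ _)
    have hmin3 : min E (min (E * d / 4) (ε / (4 * d))) ≤ ε / (4 * d) :=
      (min_le_right _ _).trans (min_le_right _ _)
    have hmin0 : 0 < min E (min (E * d / 4) (ε / (4 * d))) := by positivity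
    obtain ⟨c, hc⟩ : ∃ c : ℝ, c = min E (min (E * d / 4) (ε / (4 * d))) := ⟨_, rfl⟩
    rw [← hc] at hmin0 hmin1 hmin2 hmin3 ⊢
    push_cast
    refine ⟨?_, ?_, ?_⟩
    · exact (mul_le_mul_of_nonneg_right hmin1 hpN.le).trans hc1
    · rw [hpy]
      have k1 : y ≤ Real.exp y - 1 := by
        have := Real.add_one_le_exp y
        linarith
      have k2 : p n * y ≤ p n * Real.exp y - p n := by
        have := mul_le_mul_of_nonneg_left k1 hpn.le
        linarith
      refine le_trans ?_ k2
      calc c * p N / N ≤ (E * d / 4) * p N / N := by gcongr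
        _ = (E * p N) * (d / (4 * N)) := by field_simp
        _ ≤ p n * y := mul_le_mul hc1 hy3 (by positivity) hpn.le
    · rw [hpy]
      have k1 : Real.exp y - 1 ≤ 2 * y := by
        have k2 := Real.abs_exp_sub_one_le (x := y) (by rw [abs_of_nonneg hy5]; exact hy6)
        rw [abs_of_nonneg hy5] at k2
        exact (le_abs_self _).trans k2
      calc p n * Real.exp y - p n = p n * (Real.exp y - 1) := by ring
        _ ≤ p N * (2 * (2 * d / (ε * N))) := by
            apply mul_le_mul hc2 (k1.trans (by linarith)) _ hpN.le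
            have := Real.add_one_le_exp y
            linarith
        _ = p N * (4 * d / ε) / N := by
            field_simp
            ring
        _ ≤ p N * (1 / c) / N := by
            have k3 : 4 * d / ε ≤ 1 / c := by
              rw [div_le_div_iff₀ hε hmin0]
              rw [le_div_iff₀ (by positivity)] at hmin3
              linarith
            gcongr
        _ = p N / (c * N) := by
            field_simp
  · intro ε Q hε
    obtain ⟨δ, hδ, C, hC, hh⟩ := h φ d hφ ε Q hε
    refine ⟨δ, hδ, C, hC, ?_⟩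
    filter_upwards [hh, hNbig (x₁ / ε)] with N hN hN2 κ hκ hκ2
    rw [div_le_iff₀ hε] at hN2
    refine le_of_eq_of_le ?_ (hN κ hκ hκ2)
    congr 1
    apply sum_congr rfl
    intro n hn
    rw [mem_Ioc] at hn
    have k1 : ε * N < n := Nat.lt_of_floor_lt hn.1
    rw [(hpx n (by linarith)).2]

end Pool.Agent.Y571.MC
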