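import Pool.Agent.Y957.MC.Spec

/-!
# Project MC, parts POLY and POW (helper571): polynomials and powers are admissible
-/

set_option autoImplicit false

namespace Pool.Agent.Y571.MC

open MeasureTheory Filter Finset Pool.Agent.Y957.MC

/-- the logarithmic derivatives of `x - z` -/
noncomputable def rr (m : ℕ) (z : ℂ) (x : ℝ) : ℂ :=
  (-1) ^ m * (m.factorial : ℂ) * ((((x : ℂ) - z) ^ (m + 1))⁻¹)

theorem rr_deriv (m : ℕ) (z : ℂ) (x : ℝ) (h : (x : ℂ) - z ≠ 0) :
    HasDerivAt (rr m z) (rr (m + 1) z x) x := by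
  have h1 : HasDerivAt (fun t : ℝ => (t : ℂ) - z) 1 x :=
    (Complex.ofRealCLM.hasDerivAt (x := x)).sub_const z
  have h2 : HasDerivAt (fun t : ℝ => ((-1 : ℂ)) ^ m * (m.factorial : ℂ) *
      ((((t : ℂ) - z) ^ (m + 1))⁻¹)) _ x :=
    ((h1.fun_pow (m + 1)).fun_inv (pow_ne_zero _ h)).const_mul ((-1) ^ m * (m.factorial : ℂ))
  refine h2.congr_deriv ?_
  unfold rr
  rw [Nat.factorial_succ]
  push_cast
  field_simp
  ring

theorem rr_lim (m : ℕ) (z : ℂ) : Tendsto (fun x : ℝ => (-1) ^ m * ((x : ℂ) ^ (m + 1) * rr m z x)) atTop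
    (nhds (m.factorial : ℂ)) := by
  have h1 : Tendsto (fun x : ℝ => ((1 : ℂ) - ((x⁻¹ : ℝ) : ℂ) * z)) atTop (nhds (1 - ((0 : ℝ) : ℂ) * z)) :=
    (((Complex.continuous_ofReal.tendsto 0).comp tendsto_inv_atTop_zero).mul_const z).const_sub 1
  rw [Complex.ofReal_zero, zero_mul, sub_zero] at h1
  have h2 := ((h1.inv₀ one_ne_zero).pow (m + 1)).const_mul (m.factorial : ℂ)
  rw [inv_one, one_pow, mul_one] at h2
  refine h2.congr' ?_
  filter_upwards [eventually_gt_atTop 0] with x hx
  have hx' : (x : ℂ) ≠ 0 := by exact_mod_cast hx.ne'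
  have h3 : (1 : ℂ) - ((x⁻¹ : ℝ) : ℂ) * z = ((x : ℂ) - z) / x := by
    push_cast
    field_simp
  have h4 : ((-1 : ℂ) ^ m) * (-1) ^ m = 1 := by rw [← mul_pow]; simp
  rw [h3, inv_div, div_pow]
  unfold rr
  calc (m.factorial : ℂ) * ((x : ℂ) ^ (m + 1) / ((x : ℂ) - z) ^ (m + 1)) =
        (((-1 : ℂ) ^ m) * (-1) ^ m) * ((m.factorial : ℂ) * ((x : ℂ) ^ (m + 1) /
          ((x : ℂ) - z) ^ (m + 1))) := by rw [h4, one_mul]
    _ = _ := by
        rw [div_eq_mul_inv]
        ring

/-- the derivatives of `log P` -/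
noncomputable def ph (P : Polynomial ℝ) (S : Multiset ℂ) : ℕ → ℝ → ℝ
  | 0, x => Real.log (P.eval x)
  | m + 1, x => ((S.map fun z => rr m z x).sum).re

theorem sum_deriv (m : ℕ) (x : ℝ) (S : Multiset ℂ) : (∀ z ∈ S, (x : ℂ) - z ≠ 0) →
    HasDerivAt (fun t : ℝ => (S.map fun z => rr m z t).sum) ((S.map fun z => rr (m + 1) z x).sum) x := by
  induction S using Multiset.induction_on with
  | empty =>
    intro _
    simpa using hasDerivAt_const x (0 : ℂ)
  | cons a S ih =>
    intro h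
    simp only [Multiset.map_cons, Multiset.sum_cons]
    exact (rr_deriv m a x (h a (Multiset.mem_cons_self a S))).add
      (ih fun z hz => h z (Multiset.mem_cons_of_mem hz))

theorem re_deriv {f : ℝ → ℂ} {f' : ℂ} {x : ℝ} (h : HasDerivAt f f' x) :
    HasDerivAt (fun t => (f t).re) f'.re x := by
  have := (Complex.reCLM.hasFDerivAt (x := f x)).comp_hasDerivAt x h
  exact this

theorem poly : S_POLY := by
  intro P hd hl
  obtain ⟨S, hS⟩ : ∃ S : Multiset ℂ, S = (P.map (algebraMap ℝ ℂ)).roots := ⟨_, rfl⟩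
  have hP0 : P.map (algebraMap ℝ ℂ) ≠ 0 := by
    rw [Polynomial.map_ne_zero_iff (algebraMap ℝ ℂ).injective]
    rintro rfl
    simp at hd
  have hcard : S.card = P.natDegree := by
    rw [hS, Polynomial.splits_iff_card_roots.1 (IsAlgClosed.splits _),
      Polynomial.natDegree_map]
  have htop := Polynomial.tendsto_atTop_of_leadingCoeff_nonneg P
    (Polynomial.natDegree_pos_iff_degree_pos.1 hd) hl.le
  obtain ⟨x₁, hx₁⟩ := (htop.eventually_gt_atTop 0).exists_forall_of_atTop
  -- no roots to the right of x₁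
  have hroot : ∀ x : ℝ, x₁ ≤ x → (P.map (algebraMap ℝ ℂ)).eval (x : ℂ) = ((P.eval x : ℝ) : ℂ) := by
    intro x _
    rw [Polynomial.eval_map, ← Complex.coe_algebraMap, Polynomial.eval₂_at_apply]
  obtain ⟨R, hR⟩ : ∃ R : ℝ, ∀ z ∈ S, z.re < R := by
    refine ⟨(S.map fun z => |z.re|).sum + 1, fun z hz => ?_⟩
    have h1 : |z.re| ≤ (S.map fun z => |z.re|).sum :=
      Multiset.single_le_sum (fun y hy => by
        obtain ⟨w, -, rfl⟩ := Multiset.mem_map.1 hy
        exact abs_nonneg _) _ (Multiset.mem_map.2 ⟨z, hz, rfl⟩)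
    have := le_abs_self z.re
    linarith
  have hne : ∀ x : ℝ, max x₁ R ≤ x → ∀ z ∈ S, (x : ℂ) - z ≠ 0 := by
    intro x hx z hz h
    have h1 := congrArg Complex.re (sub_eq_zero.1 h)
    rw [Complex.ofReal_re] at h1
    have := hR z hz
    have := (le_max_right _ _).trans hx
    linarith
  refine ⟨ph P S, P.natDegree, max x₁ R, ⟨by exact_mod_cast hd, ⟨max x₁ R, ?_⟩, ?_⟩, ?_⟩
  · intro m x hx
    have hpos := hx₁ x ((le_max_left _ _).trans hx)
    cases m with
    | zero =>
      have h1 : HasDerivAt (fun t => Real.log (P.eval t)) (P.derivative.eval x / P.eval x) x :=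
        (P.hasDerivAt x).log hpos.ne'
      have h2 : P.derivative.eval x / P.eval x = ((S.map fun z => rr 0 z x).sum).re := by
        have h3 := (IsAlgClosed.splits (P.map (algebraMap ℝ ℂ))).eval_derivative_div_eval_of_ne_zero
          (x := (x : ℂ)) (by
            rw [hroot x ((le_max_left _ _).trans hx)]
            exact_mod_cast hpos.ne')
        have h4 : (P.map (algebraMap ℝ ℂ)).derivative.eval (x : ℂ) =
            ((P.derivative.eval x : ℝ) : ℂ) := by
          rw [Polynomial.derivative_map, Polynomial.eval_map, ← Complex.coe_algebraMap,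
            Polynomial.eval₂_at_apply]
        rw [h4, hroot x ((le_max_left _ _).trans hx), ← hS] at h3
        have h5 : (S.map fun z => rr 0 z x) = S.map fun z => 1 / ((x : ℂ) - z) := by
          apply Multiset.map_congr rfl
          intro z _
          unfold rr
          simp
        rw [h5, ← h3, ← Complex.ofReal_div, Complex.ofReal_re]
      show HasDerivAt (fun t => Real.log (P.eval t)) ((S.map fun z => rr 0 z x).sum).re x
      rw [← h2]
      exact h1
    | succ m =>
      exact re_deriv (sum_deriv m x S (hne x hx))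
  · intro m
    have h1 := tendsto_multiset_sum S (f := fun (z : ℂ) (x : ℝ) =>
      (-1) ^ m * ((x : ℂ) ^ (m + 1) * rr m z x)) (x := atTop) (a := fun _ => (m.factorial : ℂ))
      (fun z _ => rr_lim m z)
    have h2 := (Complex.continuous_re.tendsto _).comp h1
    have h3 : ((S.map fun _ => (m.factorial : ℂ)).sum).re = (m.factorial : ℝ) * (P.natDegree : ℝ) := by
      rw [Multiset.map_const', Multiset.sum_replicate, hcard, nsmul_eq_mul]
      have : (P.natDegree : ℂ) * (m.factorial : ℂ) = (((m.factorial : ℝ) * (P.natDegree : ℝ) : ℝ) : ℂ) := by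
        push_cast
        ring
      rw [this, Complex.ofReal_re]
    rw [h3] at h2
    refine h2.congr fun x => ?_
    simp only [Function.comp]
    show _ = (-1) ^ m * (x ^ (m + 1) * ((S.map fun z => rr m z x).sum).re)
    rw [Multiset.sum_map_mul_left, Multiset.sum_map_mul_left, ← mul_assoc, ← mul_assoc]
    have : ((-1 : ℂ)) ^ m * (x : ℂ) ^ (m + 1) = (((-1) ^ m * x ^ (m + 1) : ℝ) : ℂ) := by
      push_cast
      ring
    rw [this, Complex.re_ofReal_mul]
  · intro x hx
    exact ⟨hx₁ x ((le_max_left _ _).trans hx), rfl⟩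

/-- the derivatives of `θ log x` -/
noncomputable def pw (θ : ℝ) : ℕ → ℝ → ℝ
  | 0, x => θ * Real.log x
  | m + 1, x => θ * ((-1) ^ m * (m.factorial : ℝ) * (x ^ (m + 1))⁻¹)

theorem pow : S_POW := by
  intro θ hθ
  refine ⟨pw θ, θ, 1, ⟨hθ, ⟨1, ?_⟩, ?_⟩, ?_⟩
  · intro m x hx
    have hx0 : x ≠ 0 := by linarith
    cases m with
    | zero =>
      have h1 := (Real.hasDerivAt_log hx0).const_mul θ
      refine h1.congr_deriv ?_
      simp [pw]
    | succ m =>
      have h1 : HasDerivAt (fun t : ℝ => (-1) ^ m * (m.factorial : ℝ) * (t ^ (m + 1))⁻¹) _ x :=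
        (((hasDerivAt_id' x).fun_pow (m + 1)).fun_inv (pow_ne_zero _ hx0)).const_mul
        ((-1) ^ m * (m.factorial : ℝ))
      have h2 := h1.const_mul θ
      refine h2.congr_deriv ?_
      show _ = θ * ((-1) ^ (m + 1) * ((m + 1).factorial : ℝ) * (x ^ (m + 1 + 1))⁻¹)
      rw [Nat.factorial_succ]
      push_cast
      field_simp
      ring
  · intro m
    apply tendsto_const_nhds.congr'
    filter_upwards [eventually_gt_atTop 0] with x hx
    show _ = (-1) ^ m * (x ^ (m + 1) * (θ * ((-1) ^ m * (m.factorial : ℝ) * (x ^ (m + 1))⁻¹)))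
    have h4 : ((-1 : ℝ) ^ m) * (-1) ^ m = 1 := by rw [← mul_pow]; simp
    have hx0 : x ^ (m + 1) ≠ 0 := by positivity
    calc (m.factorial : ℝ) * θ = (((-1 : ℝ) ^ m) * (-1) ^ m) * ((m.factorial : ℝ) * θ) *
          (x ^ (m + 1) * (x ^ (m + 1))⁻¹) := by rw [h4, one_mul, mul_inv_cancel₀ hx0, mul_one]
      _ = _ := by ring
  · intro x hx
    refine ⟨Real.rpow_pos_of_pos (by linarith) _, ?_⟩
    show θ * Real.log x = _
    rw [Real.log_rpow (by linarith)]

end Pool.Agent.Y571.MC
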