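import Pool.Agent.Y957.MC.Spec
import Pool.Agent.H165R3.BPE

/-!
# Project MC, part BTY3 (helper571): conclusion for Beatty times
-/

set_option autoImplicit false

namespace Pool.Agent.Y571.MC

open MeasureTheory Filter Finset Pool.Agent.Y957.MC

universe u

variable {X : Type u} [MeasurableSpace X] {μ : Measure X} {T : X → X} {g : X → ℝ}

/-- an everywhere bounded and everywhere invariant version of the conditional expectation -/
theorem exists_version (μ : Measure X) [IsProbabilityMeasure μ] (T : X → X) (g : X → ℝ)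
    (C : ℝ) (hC0 : 0 ≤ C) (hC : ∀ x, |g x| ≤ C) :
    ∃ h : X → ℝ, Measurable h ∧ (∀ x, |h x| ≤ C) ∧ (∀ x, h (T x) = h x) ∧
      ∀ᵐ x ∂μ, h x = (μ[g | MeasurableSpace.invariants T]) x := by
  have hm : Measurable[MeasurableSpace.invariants T]
      (fun x => max (-C) (min C ((μ[g | MeasurableSpace.invariants T]) x))) :=
    measurable_const.max (measurable_const.min stronglyMeasurable_condExp.measurable)
  refine ⟨_, hm.mono (MeasurableSpace.invariants_le T) le_rfl, ?_, ?_, ?_⟩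
  · intro x
    rw [abs_le]
    refine ⟨le_max_left _ _, max_le (by linarith) (min_le_left _ _)⟩
  · intro x
    exact congrFun (@MeasurableSpace.comp_eq_of_measurable_invariants X _ ℝ _ T _ _ hm) x
  · filter_upwards [ae_bdd_abs_condExp_of_ae_bdd_abs (m := MeasurableSpace.invariants T) (μ := μ)
      (R := C) (f := g) (Eventually.of_forall hC)] with x hx
    rw [abs_le] at hx
    rw [min_eq_right hx.2, max_eq_right hx.1]

theorem iterate_inv {h : X → ℝ} (hh : ∀ x, h (T x) = h x) (k : ℕ) (x : X) : h (T^[k] x) = h x := by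
  induction k generalizing x with
  | zero => rfl
  | succ k ih => rw [Function.iterate_succ_apply, ih, hh]

/-- the error functions -/
noncomputable def er (T : X → X) (g h : X → ℝ) (C : ℝ) (m : ℕ) (x : X) : ℝ :=
  |(m : ℝ)⁻¹ * ∑ i ∈ range m, g (T^[i] x) - h x| / (2 * C + 1)

theorem er_meas (hT : Measurable T) (hg : Measurable g) {h : X → ℝ} (hh : Measurable h) (C : ℝ)
    (m : ℕ) : Measurable (er T g h C m) := by
  unfold er
  apply Measurable.div_const
  apply Measurable.abs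
  apply Measurable.sub _ hh
  apply Measurable.const_mul
  apply Finset.measurable_sum
  intro i _
  exact hg.comp (hT.iterate i)

theorem er_bd {h : X → ℝ} {C : ℝ} (hC0 : 0 ≤ C) (hC : ∀ x, |g x| ≤ C) (hh : ∀ x, |h x| ≤ C)
    (m : ℕ) (x : X) : 0 ≤ er T g h C m x ∧ er T g h C m x ≤ 1 := by
  unfold er
  refine ⟨div_nonneg (abs_nonneg _) (by linarith), ?_⟩
  rw [div_le_one (by linarith)]
  have h1 : |(m : ℝ)⁻¹ * ∑ i ∈ range m, g (T^[i] x)| ≤ C := by
    rcases Nat.eq_zero_or_pos m with h0 | h0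
    · subst h0; simpa using hC0
    · rw [abs_mul, abs_inv, Nat.abs_cast]
      have h2 : |∑ i ∈ range m, g (T^[i] x)| ≤ m * C := by
        calc |∑ i ∈ range m, g (T^[i] x)| ≤ ∑ i ∈ range m, |g (T^[i] x)| := abs_sum_le_sum_abs _ _
          _ ≤ ∑ _i ∈ range m, C := sum_le_sum fun i _ => hC _
          _ = m * C := by simp
      have hm : (0 : ℝ) < m := by exact_mod_cast h0
      rw [inv_mul_le_iff₀ hm]
      exact h2
  have h3 := abs_sub ((m : ℝ)⁻¹ * ∑ i ∈ range m, g (T^[i] x)) (h x)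
  have h4 := hh x
  linarith

theorem er_small [IsProbabilityMeasure μ] (hT : MeasurePreserving T μ μ) (hg : Measurable g)
    {h : X → ℝ} (hh : Measurable h) {C : ℝ} (hC0 : 0 ≤ C) (hC : ∀ x, |g x| ≤ C)
    (hhC : ∀ x, |h x| ≤ C) (hhg : ∀ᵐ x ∂μ, h x = (μ[g | MeasurableSpace.invariants T]) x) :
    ∀ᵐ x ∂μ, ∀ η : ℝ, 0 < η → ∃ m : ℕ, 1 ≤ m ∧
      (μ[er T g h C m | MeasurableSpace.invariants T]) x < η := by
  have hint : ∀ m, Integrable (er T g h C m) μ := fun m =>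
    (integrable_const (1 : ℝ)).mono' (er_meas hT.measurable hg hh C m).aestronglyMeasurable
      (Eventually.of_forall fun x => by
        rw [Real.norm_of_nonneg (er_bd hC0 hC hhC m x).1]
        exact (er_bd hC0 hC hhC m x).2)
  -- the integrals tend to zero
  have h0 : Tendsto (fun m => ∫ x, er T g h C m x ∂μ) atTop (nhds 0) := by
    have h1 : Tendsto (fun m => ∫ x, er T g h C m x ∂μ) atTop (nhds (∫ _x : X, (0 : ℝ) ∂μ)) := by
      apply tendsto_integral_of_dominated_convergence (fun _ => (1 : ℝ))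
      · intro m
        exact (hint m).aestronglyMeasurable
      · exact integrable_const _
      · intro m
        filter_upwards with x
        rw [Real.norm_of_nonneg (er_bd hC0 hC hhC m x).1]
        exact (er_bd hC0 hC hhC m x).2
      · filter_upwards [Pool.Agent.H165R3.BPE.birkhoff hT g hg C hC, hhg] with x hx hx'
        rw [← hx'] at hx
        have h2 := ((hx.sub_const (h x)).abs).div_const (2 * C + 1)
        rw [sub_self, abs_zero, zero_div] at h2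
        exact h2
    simpa using h1
  have key : ∀ k : ℕ, ∀ᵐ x ∂μ, ∃ m : ℕ, 1 ≤ m ∧
      (μ[er T g h C m | MeasurableSpace.invariants T]) x < 1 / ((k : ℝ) + 1) := by
    intro k
    have hk : (0 : ℝ) < 1 / ((k : ℝ) + 1) := by positivity
    rw [ae_iff]
    obtain ⟨S, hS⟩ : ∃ S : Set X, S = {x | ¬ ∃ m : ℕ, 1 ≤ m ∧
      (μ[er T g h C m | MeasurableSpace.invariants T]) x < 1 / ((k : ℝ) + 1)} := ⟨_, rfl⟩
    rw [← hS, ← measureReal_eq_zero_iff]
    have h1 : ∀ m : ℕ, 1 ≤ m → (1 / ((k : ℝ) + 1)) * μ.real S ≤ ∫ x, er T g h C m x ∂μ := by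
      intro m hm
      have h2 := mul_meas_ge_le_integral_of_nonneg (μ := μ)
        (f := μ[er T g h C m | MeasurableSpace.invariants T])
        (condExp_nonneg (Eventually.of_forall fun x => (er_bd hC0 hC hhC m x).1))
        integrable_condExp (1 / ((k : ℝ) + 1))
      rw [integral_condExp (MeasurableSpace.invariants_le T)] at h2
      refine le_trans (mul_le_mul_of_nonneg_left (measureReal_mono ?_) hk.le) h2
      intro x hx
      rw [hS] at hx
      simp only [Set.mem_setOf_eq, not_exists, not_and, not_lt] at hx ⊢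
      exact hx m hm
    have h2 : (1 / ((k : ℝ) + 1)) * μ.real S ≤ 0 :=
      ge_of_tendsto h0 (by
        filter_upwards [eventually_ge_atTop 1] with m hm
        exact h1 m hm)
    have h3 : 0 ≤ μ.real S := measureReal_nonneg
    nlinarith
  rw [← ae_all_iff] at key
  filter_upwards [key] with x hx η hη
  obtain ⟨k, hk⟩ := exists_nat_one_div_lt hη
  obtain ⟨m, hm, h1⟩ := hx k
  exact ⟨m, hm, h1.trans hk⟩

theorem bty (h1 : S_BTY1.{u}) (h2 : S_BTY2.{u}) : S_BTY.{u} := by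
  intro p hp X _ μ _ T g hT hg hgC
  obtain ⟨C', hC'⟩ := hgC
  obtain ⟨C, hCdef⟩ : ∃ C : ℝ, C = max C' 0 := ⟨_, rfl⟩
  have hC0 : 0 ≤ C := hCdef ▸ le_max_right _ _
  have hC : ∀ x, |g x| ≤ C := fun x => (hC' x).trans (hCdef ▸ le_max_left _ _)
  obtain ⟨K, hK, h2⟩ := h2 p hp
  obtain ⟨h, hh, hhC, hinv, hhg⟩ := exists_version μ T g C hC0 hC
  have a1 : ∀ᵐ x ∂μ, ∀ m : ℕ, 1 ≤ m → ∀ B : ℕ → ℂ, (∀ n, ‖B n‖ ≤ 1) →
      ∀ᵐ a : ℝ ∂(volume.restrict (Set.Ioi (0 : ℝ))),
      Tendsto (fun N : ℕ => (1 / (N : ℂ)) * ∑ n ∈ Icc 1 N, B n *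
        (((g (T^[⌊a * p n⌋₊] x) - (1 / (m : ℝ)) * ∑ i ∈ range m, g (T^[⌊a * p n⌋₊ + i] x) : ℝ)) : ℂ))
        atTop (nhds 0) := by
    rw [ae_all_iff]
    intro m
    by_cases hm : 1 ≤ m
    · filter_upwards [h1 p hp X μ T g hT hg ⟨C, hC⟩ m hm] with x hx _
      exact hx
    · exact Eventually.of_forall fun x hm' => absurd hm' hm
  have a2 : ∀ᵐ x ∂μ, ∀ m : ℕ, ∀ᵐ a : ℝ ∂(volume.restrict (Set.Ioi (0 : ℝ))), ∀ ε : ℝ, 0 < ε →
      ∀ᶠ N : ℕ in atTop, (1 / (N : ℝ)) * ∑ n ∈ Icc 1 N, er T g h C m (T^[⌊a * p n⌋₊] x) ≤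
        ε + K ε * (μ[er T g h C m | MeasurableSpace.invariants T]) x := by
    rw [ae_all_iff]
    intro m
    exact h2 X μ T (er T g h C m) hT (er_meas hT.measurable hg hh C m)
      (fun x => er_bd hC0 hC hhC m x)
  filter_upwards [a1, a2, er_small hT hg hh hC0 hC hhC hhg, hhg] with x b1 b2 b3 b4 B hB
  have c1 : ∀ᵐ a : ℝ ∂(volume.restrict (Set.Ioi (0 : ℝ))), ∀ m : ℕ, 1 ≤ m →
      Tendsto (fun N : ℕ => (1 / (N : ℂ)) * ∑ n ∈ Icc 1 N, B n *
        (((g (T^[⌊a * p n⌋₊] x) - (1 / (m : ℝ)) * ∑ i ∈ range m, g (T^[⌊a * p n⌋₊ + i] x) : ℝ)) : ℂ))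
        atTop (nhds 0) := by
    rw [ae_all_iff]
    intro m
    by_cases hm : 1 ≤ m
    · filter_upwards [b1 m hm B hB] with a ha _
      exact ha
    · exact Eventually.of_forall fun a hm' => absurd hm' hm
  have c2 := ae_all_iff.2 b2
  filter_upwards [c1, c2] with a d1 d2
  rw [← b4]
  rw [Metric.tendsto_atTop]
  intro η hη
  obtain ⟨ε, hε⟩ : ∃ ε : ℝ, ε = η / (4 * (2 * C + 1)) := ⟨_, rfl⟩
  have hε0 : 0 < ε := by rw [hε]; positivity
  obtain ⟨m, hm, hm2⟩ := b3 (ε / K ε) (div_pos hε0 (hK ε))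
  have hm3 : K ε * (μ[er T g h C m | MeasurableSpace.invariants T]) x ≤ ε := by
    rw [lt_div_iff₀ (hK ε)] at hm2
    linarith
  have e1 := Metric.tendsto_atTop.1 (d1 m hm) (η / 2) (by positivity)
  obtain ⟨N1, hN1⟩ := e1
  obtain ⟨N2, hN2⟩ := (d2 m ε hε0).exists_forall_of_atTop
  refine ⟨max N1 N2, fun N hN => ?_⟩
  have f1 := hN1 N ((le_max_left _ _).trans hN)
  have f2 := hN2 N ((le_max_right _ _).trans hN)
  rw [dist_zero_right] at f1 ⊢
  -- decomposition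
  have hdec : (1 / (N : ℂ)) * ∑ n ∈ Icc 1 N, B n * (((g (T^[⌊a * p n⌋₊] x) - h x : ℝ)) : ℂ) =
      (1 / (N : ℂ)) * ∑ n ∈ Icc 1 N, B n *
        (((g (T^[⌊a * p n⌋₊] x) - (1 / (m : ℝ)) * ∑ i ∈ range m, g (T^[⌊a * p n⌋₊ + i] x) : ℝ)) : ℂ) +
      (1 / (N : ℂ)) * ∑ n ∈ Icc 1 N, B n *
        ((((m : ℝ)⁻¹ * ∑ i ∈ range m, g (T^[i] (T^[⌊a * p n⌋₊] x)) -
          h (T^[⌊a * p n⌋₊] x) : ℝ)) : ℂ) := by
    rw [← mul_add, ← sum_add_distrib]
    congr 1
    apply sum_congr rfl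
    intro n _
    rw [← mul_add, ← Complex.ofReal_add]
    congr 2
    rw [iterate_inv hinv]
    have : ∀ i, T^[i] (T^[⌊a * p n⌋₊] x) = T^[⌊a * p n⌋₊ + i] x := by
      intro i
      rw [← Function.iterate_add_apply, add_comm]
    simp only [this]
    ring
  have hsec : ‖(1 / (N : ℂ)) * ∑ n ∈ Icc 1 N, B n *
        ((((m : ℝ)⁻¹ * ∑ i ∈ range m, g (T^[i] (T^[⌊a * p n⌋₊] x)) -
          h (T^[⌊a * p n⌋₊] x) : ℝ)) : ℂ)‖ ≤
      (2 * C + 1) * ((1 / (N : ℝ)) * ∑ n ∈ Icc 1 N, er T g h C m (T^[⌊a * p n⌋₊] x)) := by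
    rw [norm_mul]
    have hN' : ‖(1 / (N : ℂ))‖ = 1 / (N : ℝ) := by
      rw [norm_div, norm_one, Complex.norm_natCast]
    rw [hN', mul_left_comm]
    apply mul_le_mul_of_nonneg_left _ (by positivity)
    refine (norm_sum_le _ _).trans ?_
    rw [mul_sum]
    apply sum_le_sum
    intro n _
    rw [norm_mul, Complex.norm_real, Real.norm_eq_abs]
    have hC1 : (2 * C + 1) ≠ 0 := by positivity
    have h5 : (2 * C + 1) * er T g h C m (T^[⌊a * p n⌋₊] x) =
        |(m : ℝ)⁻¹ * ∑ i ∈ range m, g (T^[i] (T^[⌊a * p n⌋₊] x)) - h (T^[⌊a * p n⌋₊] x)| := by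
      unfold er
      field_simp
    rw [h5]
    exact mul_le_of_le_one_left (abs_nonneg _) (hB n)
  rw [hdec]
  refine lt_of_le_of_lt (norm_add_le _ _) ?_
  have h6 : (2 * C + 1) * ((1 / (N : ℝ)) * ∑ n ∈ Icc 1 N, er T g h C m (T^[⌊a * p n⌋₊] x)) ≤
      (2 * C + 1) * (2 * ε) := mul_le_mul_of_nonneg_left (by linarith) (by linarith)
  have h7 : (2 * C + 1) * (2 * ε) = η / 2 := by
    rw [hε]
    have hC1 : (2 * C + 1) ≠ 0 := by positivity
    field_simp
    ring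
  linarith

end Pool.Agent.Y571.MC
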