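import Pool.Agent.Y957.MC.Spec

/-!
# Project MC, part PROD (helper571): products with independent parameters
-/

set_option autoImplicit false

namespace Pool.Agent.Y571.MC

open MeasureTheory Filter Finset Pool.Agent.Y957.MC

universe u

theorem core (ν : Measure ℝ) [SigmaFinite ν] (k : ℕ) : ∀ (ψ : Fin k → ℝ → ℕ → ℝ) (γ : Fin k → ℝ)
    (C : ℝ), (∀ j n, Measurable (fun a => ψ j a n)) → (∀ j a n, |ψ j a n| ≤ C) →
    (∀ j, ∀ B : ℕ → ℂ, (∀ n, ‖B n‖ ≤ 1) → ∀ᵐ a : ℝ ∂ν, Tendsto (fun N : ℕ =>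
      (1 / (N : ℂ)) * ∑ n ∈ Icc 1 N, B n * (((ψ j a n - γ j : ℝ)) : ℂ)) atTop (nhds 0)) →
    ∀ B : ℕ → ℂ, (∀ n, ‖B n‖ ≤ 1) → ∀ᵐ a : Fin k → ℝ ∂(Measure.pi fun _ => ν),
      Tendsto (fun N : ℕ => (1 / (N : ℂ)) * ∑ n ∈ Icc 1 N,
        B n * (((∏ j, ψ j (a j) n - ∏ j, γ j : ℝ)) : ℂ)) atTop (nhds 0) := by
  induction k with
  | zero =>
    intro ψ γ C _ _ _ B _
    filter_upwards with a
    simp
  | succ k ih =>
    intro ψ γ C hm hC h B hB
    obtain ⟨C1, hC1⟩ : ∃ C1 : ℝ, C1 = max C 1 := ⟨_, rfl⟩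
    have hC1' : 1 ≤ C1 := hC1 ▸ le_max_right _ _
    have hCC : ∀ j a n, |ψ j a n| ≤ C1 := fun j a n => (hC j a n).trans (hC1 ▸ le_max_left _ _)
    have hpk : 0 < C1 ^ k := by positivity
    have ih' := ih (fun j => ψ j.succ) (fun j => γ j.succ) C (fun j n => hm j.succ n)
      (fun j a n => hC j.succ a n) (fun j => h j.succ) B hB
    -- the statement on the product
    have key : ∀ᵐ a' : Fin k → ℝ ∂(Measure.pi fun _ => ν), ∀ᵐ a₀ : ℝ ∂ν,
        Tendsto (fun N : ℕ => (1 / (N : ℂ)) * ∑ n ∈ Icc 1 N,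
          B n * (((ψ 0 a₀ n * ∏ j : Fin k, ψ j.succ (a' j) n -
            γ 0 * ∏ j : Fin k, γ j.succ : ℝ)) : ℂ)) atTop (nhds 0) := by
      filter_upwards [ih'] with a' ha'
      have hB' : ∀ n, ‖B n * (((∏ j : Fin k, ψ j.succ (a' j) n : ℝ) : ℂ) / (C1 ^ k : ℝ))‖ ≤ 1 := by
        intro n
        rw [norm_mul, norm_div, Complex.norm_real, Complex.norm_real,
          Real.norm_of_nonneg hpk.le, Real.norm_eq_abs, abs_prod]
        have h1 : ∏ j : Fin k, |ψ j.succ (a' j) n| ≤ C1 ^ k := by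
          calc ∏ j : Fin k, |ψ j.succ (a' j) n| ≤ ∏ _j : Fin k, C1 :=
                prod_le_prod (fun j _ => abs_nonneg _) (fun j _ => hCC _ _ _)
            _ = C1 ^ k := by simp
        calc ‖B n‖ * ((∏ j : Fin k, |ψ j.succ (a' j) n|) / C1 ^ k) ≤ 1 * 1 :=
              mul_le_mul (hB n) ((div_le_one hpk).2 h1)
                (div_nonneg (prod_nonneg fun _ _ => abs_nonneg _) hpk.le) zero_le_one
          _ = 1 := one_mul _
      filter_upwards [h 0 _ hB'] with a₀ ha₀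
      have h2 := (ha₀.const_mul ((C1 ^ k : ℝ) : ℂ)).add (ha'.const_mul ((γ 0 : ℝ) : ℂ))
      rw [mul_zero, mul_zero, add_zero] at h2
      refine h2.congr fun N => ?_
      rw [mul_left_comm, mul_left_comm ((γ 0 : ℝ) : ℂ), ← mul_add, mul_sum, mul_sum,
        ← sum_add_distrib]
      congr 1
      apply sum_congr rfl
      intro n _
      have hpk' : ((C1 ^ k : ℝ) : ℂ) ≠ 0 := by exact_mod_cast hpk.ne'
      push_cast at hpk' ⊢
      field_simp
      ring
    have hmeas : ∀ N : ℕ, Measurable (fun y : ℝ × (Fin k → ℝ) => (1 / (N : ℂ)) * ∑ n ∈ Icc 1 N,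
          B n * (((ψ 0 y.1 n * ∏ j : Fin k, ψ j.succ (y.2 j) n -
            γ 0 * ∏ j : Fin k, γ j.succ : ℝ)) : ℂ)) := by
      intro N
      apply Measurable.const_mul
      apply Finset.measurable_sum
      intro n _
      apply Measurable.const_mul
      apply Complex.measurable_ofReal.comp
      apply Measurable.sub_const
      apply Measurable.mul
      · exact (hm 0 n).comp measurable_fst
      · apply Finset.measurable_prod
        intro j _
        exact (hm j.succ n).comp ((measurable_pi_apply j).comp measurable_snd)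
    have hset : MeasurableSet {y : ℝ × (Fin k → ℝ) | Tendsto (fun N : ℕ =>
        (1 / (N : ℂ)) * ∑ n ∈ Icc 1 N, B n * (((ψ 0 y.1 n * ∏ j : Fin k, ψ j.succ (y.2 j) n -
            γ 0 * ∏ j : Fin k, γ j.succ : ℝ)) : ℂ)) atTop (nhds 0)} :=
      measurableSet_tendsto (nhds 0) hmeas
    have hprod : ∀ᵐ y : ℝ × (Fin k → ℝ) ∂(ν.prod (Measure.pi fun _ => ν)), Tendsto (fun N : ℕ =>
        (1 / (N : ℂ)) * ∑ n ∈ Icc 1 N, B n * (((ψ 0 y.1 n * ∏ j : Fin k, ψ j.succ (y.2 j) n -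
            γ 0 * ∏ j : Fin k, γ j.succ : ℝ)) : ℂ)) atTop (nhds 0) := by
      rw [Measure.ae_prod_iff_ae_ae hset]
      exact (Measure.ae_ae_comm hset).2 key
    have hmp := measurePreserving_piFinSuccAbove (fun _ : Fin (k + 1) => ν) 0
    have h3 := hmp.quasiMeasurePreserving.ae hprod
    filter_upwards [h3] with a ha
    refine ha.congr fun N => ?_
    congr 1
    apply sum_congr rfl
    intro n _
    rw [Fin.prod_univ_succ, Fin.prod_univ_succ]
    rfl

theorem prod : S_PROD.{u} := by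
  intro X _ μ _ k ν _ φ g hφ hg hφC hgC h
  obtain ⟨C, hC⟩ := hφC
  have h1 : ∀ᵐ x ∂μ, ∀ j, ∀ B : ℕ → ℂ, (∀ n, ‖B n‖ ≤ 1) → ∀ᵐ a : ℝ ∂ν,
      Tendsto (fun N : ℕ => (1 / (N : ℂ)) * ∑ n ∈ Icc 1 N, B n * (((φ j x a n - g j x : ℝ)) : ℂ))
        atTop (nhds 0) := by
    rw [ae_all_iff]
    exact h
  have h2 : ∀ᵐ x ∂μ, ∀ᵐ a : Fin k → ℝ ∂(Measure.pi fun _ => ν),
      Tendsto (fun N : ℕ => (1 / (N : ℂ)) * ∑ n ∈ Icc 1 N,
        (((∏ j, φ j x (a j) n - ∏ j, g j x : ℝ)) : ℂ)) atTop (nhds 0) := by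
    filter_upwards [h1] with x hx
    have := core ν k (fun j a n => φ j x a n) (fun j => g j x) C
      (fun j n => (hφ j n).comp measurable_prodMk_left) (fun j a n => hC j x a n) hx
      (fun _ => 1) (fun _ => by simp)
    simpa using this
  have hmeas : ∀ N : ℕ, Measurable (fun y : X × (Fin k → ℝ) => (1 / (N : ℂ)) * ∑ n ∈ Icc 1 N,
        (((∏ j, φ j y.1 (y.2 j) n - ∏ j, g j y.1 : ℝ)) : ℂ)) := by
    intro N
    apply Measurable.const_mul
    apply Finset.measurable_sum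
    intro n _
    apply Complex.measurable_ofReal.comp
    apply Measurable.sub
    · apply Finset.measurable_prod
      intro j _
      exact (hφ j n).comp (measurable_fst.prodMk ((measurable_pi_apply j).comp measurable_snd))
    · apply Finset.measurable_prod
      intro j _
      exact (hg j).comp measurable_fst
  have hset : MeasurableSet {y : X × (Fin k → ℝ) | Tendsto (fun N : ℕ =>
      (1 / (N : ℂ)) * ∑ n ∈ Icc 1 N,
        (((∏ j, φ j y.1 (y.2 j) n - ∏ j, g j y.1 : ℝ)) : ℂ)) atTop (nhds 0)} :=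
    measurableSet_tendsto (nhds 0) hmeas
  have h3 := (Measure.ae_ae_comm hset).1 h2
  filter_upwards [h3] with a ha
  filter_upwards [ha] with x hx
  have h4 : Tendsto (fun N : ℕ => (1 / (N : ℝ)) * ∑ n ∈ Icc 1 N,
      (∏ j, φ j x (a j) n - ∏ j, g j x)) atTop (nhds 0) := by
    have h5 := (Complex.continuous_re.tendsto 0).comp hx
    rw [Complex.zero_re] at h5
    refine h5.congr fun N => ?_
    simp only [Function.comp]
    have h6 : (1 / (N : ℂ)) * ∑ n ∈ Icc 1 N, (((∏ j, φ j x (a j) n - ∏ j, g j x : ℝ)) : ℂ) =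
        (((1 / (N : ℝ)) * ∑ n ∈ Icc 1 N, (∏ j, φ j x (a j) n - ∏ j, g j x) : ℝ) : ℂ) := by
      push_cast
      rfl
    rw [h6, Complex.ofReal_re]
  have h7 := h4.add_const (∏ j, g j x)
  rw [zero_add] at h7
  refine h7.congr' ?_
  filter_upwards [eventually_ge_atTop 1] with N hN
  rw [sum_sub_distrib, sum_const, Nat.card_Icc, nsmul_eq_mul]
  have hN' : (N : ℝ) ≠ 0 := by
    have : 0 < N := hN
    exact_mod_cast this.ne'
  push_cast [Nat.add_sub_cancel]
  field_simp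
  ring

end Pool.Agent.Y571.MC
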